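import Pool.Agent.H76.SF.Stm

set_option autoImplicit false

namespace H78.SF

open Finset Classical H76.SF

theorem t_ONE (hGRE : S_GRE) (hSPA : S_SPA) : S_ONE := by
  intro V _ G n r q hr hV hn hdeg
  by_contra hno
  obtain ⟨m, hm⟩ : ∃ m, m = r * (q + 1) := ⟨_, rfl⟩
  rw [← hm] at hn
  have hrm : r ≤ m := by rw [hm]; exact Nat.le_mul_of_pos_right _ (by omega)
  have hpart : ∀ (S : Finset V) (v : V), v ∉ S → (S.filter (fun x => G.Adj v x)).card +
      (S.filter (fun x => Gᶜ.Adj v x)).card = S.card := by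
    intro S v hv
    rw [← card_filter_add_card_filter_not (s := S) (fun x => G.Adj v x)]
    congr 2
    apply filter_congr
    intro x hx
    rw [SimpleGraph.compl_adj]
    constructor
    · rintro ⟨_, h⟩; exact h
    · intro h; exact ⟨fun h' => hv (h' ▸ hx), h⟩
  have hfull : ∀ (S : Finset V) (v : V), (S.filter (fun x => G.Adj v x)).card =
      ((S.erase v).filter (fun x => G.Adj v x)).card := by
    intro S v
    congr 1
    ext x
    simp only [mem_filter, mem_erase]
    constructor
    · rintro ⟨h1, h2⟩; exact ⟨⟨h2.ne', h1⟩, h2⟩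
    · rintro ⟨⟨_, h1⟩, h2⟩; exact ⟨h1, h2⟩
  have hfullc : ∀ (S : Finset V) (v : V), (S.filter (fun x => Gᶜ.Adj v x)).card =
      ((S.erase v).filter (fun x => Gᶜ.Adj v x)).card := by
    intro S v
    congr 1
    ext x
    simp only [mem_filter, mem_erase]
    constructor
    · rintro ⟨h1, h2⟩; exact ⟨⟨h2.ne', h1⟩, h2⟩
    · rintro ⟨⟨_, h1⟩, h2⟩; exact ⟨h1, h2⟩
  have hpart' : ∀ (S : Finset V) (v : V), v ∈ S → (S.filter (fun x => G.Adj v x)).card +
      (S.filter (fun x => Gᶜ.Adj v x)).card + 1 = S.card := by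
    intro S v hv
    rw [hfull, hfullc, hpart _ _ (notMem_erase v S), card_erase_of_mem hv]
    have := card_pos.mpr ⟨v, hv⟩
    omega
  have hdeg2 : ∀ v, n + r ≤ (univ.filter (fun x => G.Adj v x)).card := by
    intro v
    have h1 := hpart' univ v (mem_univ v)
    have h2 := hdeg v
    rw [card_univ, hV] at h1
    omega
  obtain ⟨v₀⟩ : Nonempty V := by
    rw [← Fintype.card_pos_iff]; omega
  obtain ⟨W, hW, hWs⟩ := hSPA V G n r q v₀ hr (by have := hdeg2 v₀; omega) hno
  rw [← hm] at hWs
  rw [hV] at hW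
  obtain ⟨T, hT⟩ : ∃ T, T = W.filter (fun w => ¬ m ≤ (W.filter (fun x => G.Adj w x)).card) :=
    ⟨_, rfl⟩
  have hTc : n ≤ T.card := by
    have h1 := card_filter_add_card_filter_not (s := W)
      (fun w => m ≤ (W.filter (fun x => G.Adj w x)).card)
    rw [← hT] at h1
    omega
  have hTW : T ⊆ W := by rw [hT]; exact filter_subset _ _
  have hTd : ∀ w ∈ T, (W.filter (fun x => G.Adj w x)).card < m := by
    intro w hw
    rw [hT, mem_filter] at hw
    omega
  obtain ⟨U, hU⟩ : ∃ U : Finset V, U = univ \ W := ⟨_, rfl⟩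
  have hUc : U.card = n + 1 := by
    rw [hU, card_sdiff_of_subset (subset_univ W), card_univ, hV]; omega
  have hUW : ∀ u ∈ U, u ∉ W := by intro u hu; rw [hU, mem_sdiff] at hu; exact hu.2
  -- typical vertices have few non-neighbours in `U`
  have hTU : ∀ w ∈ T, (U.filter (fun x => Gᶜ.Adj w x)).card < m := by
    intro w hw
    have h1 := hpart' W w (hTW hw)
    have h2 := hTd w hw
    have h3 := hdeg w
    have h4 : (univ.filter (fun x => Gᶜ.Adj w x)).card =
        (W.filter (fun x => Gᶜ.Adj w x)).card + (U.filter (fun x => Gᶜ.Adj w x)).card := by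
      rw [← card_union_of_disjoint]
      · congr 1
        ext x
        simp only [mem_filter, mem_univ, true_and, mem_union, hU, mem_sdiff]
        tauto
      · rw [disjoint_left]
        intro x h5 h6
        exact hUW x (mem_filter.mp h6).1 (mem_filter.mp h5).1
    omega
  obtain ⟨B, hB⟩ : ∃ B, B = U.filter (fun u => (W.filter (fun x => G.Adj u x)).card ≤ 2 * m) :=
    ⟨_, rfl⟩
  obtain ⟨T', hT'T, hT'c⟩ := exists_subset_card_eq hTc
  have hBc : B.card ≤ 2 * m := by
    have h1 : B.card * (n - 2 * m) ≤ ∑ u ∈ B, (T'.filter (fun x => Gᶜ.Adj u x)).card := by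
      rw [← smul_eq_mul, ← sum_const]
      apply sum_le_sum
      intro u hu
      rw [hB, mem_filter] at hu
      have h2 := hpart T' u (fun h => hUW u hu.1 (hTW (hT'T h)))
      have h3 : (T'.filter (fun x => G.Adj u x)).card ≤ (W.filter (fun x => G.Adj u x)).card :=
        card_le_card (filter_subset_filter _ (hT'T.trans hTW))
      omega
    have h2 : ∑ u ∈ B, (T'.filter (fun x => Gᶜ.Adj u x)).card =
        ∑ t ∈ T', (B.filter (fun u => Gᶜ.Adj u t)).card := by
      simp only [card_filter]
      rw [sum_comm]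
    have h3 : ∑ t ∈ T', (B.filter (fun u => Gᶜ.Adj u t)).card ≤ T'.card * m := by
      rw [← smul_eq_mul, ← sum_const]
      apply sum_le_sum
      intro t ht
      have h4 := hTU t (hT'T ht)
      have h5 : (B.filter (fun u => Gᶜ.Adj u t)).card ≤ (U.filter (fun x => Gᶜ.Adj t x)).card := by
        apply card_le_card
        intro x hx
        rw [mem_filter] at hx ⊢
        rw [hB, mem_filter] at hx
        exact ⟨hx.1.1, hx.2.symm⟩
      omega
    rw [h2] at h1
    have h4 := h1.trans h3
    rw [hT'c] at h4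
    by_contra hcon
    push Not at hcon
    have h5 : (2 * m + 1) * (n - 2 * m) ≤ n * m :=
      (Nat.mul_le_mul_right _ hcon).trans h4
    obtain ⟨a, ha⟩ : ∃ a, n = 20 * m + a := ⟨n - 20 * m, by omega⟩
    have h6 : n - 2 * m = 18 * m + a := by omega
    rw [h6, ha] at h5
    nlinarith [Nat.zero_le (m * a), Nat.zero_le (m * m), Nat.zero_le m]
  obtain ⟨w, hw⟩ : T.Nonempty := by
    rw [← card_pos]; omega
  -- good neighbours of `w` in `U`
  obtain ⟨Gd, hGd⟩ : ∃ Gd, Gd = (U.filter (fun x => G.Adj w x)) \ B := ⟨_, rfl⟩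
  have hGdc : r ≤ Gd.card := by
    have h1 := hpart U w (fun h => hUW w h (hTW hw))
    have h2 := hTU w hw
    have h3 : (U.filter (fun x => G.Adj w x)).card - B.card ≤ Gd.card := by
      rw [hGd]; exact le_card_sdiff _ _
    omega
  obtain ⟨R, hRG, hRc⟩ := exists_subset_card_eq hGdc
  let eqv : Fin r ≃ R := (Fintype.equivFinOfCardEq (by simpa using hRc)).symm
  let u : Fin r → V := fun i => (eqv i : V)
  have hui : Function.Injective u := fun i j h => eqv.injective (Subtype.ext h)
  have huR : ∀ i, u i ∈ R := fun i => (eqv i).2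
  have huG : ∀ i, u i ∈ U ∧ G.Adj w (u i) ∧ u i ∉ B := by
    intro i
    have := hRG (huR i)
    rw [hGd, mem_sdiff, mem_filter] at this
    exact ⟨this.1.1, this.1.2, this.2⟩
  have hLc : n ≤ ((univ.filter (fun x => G.Adj w x)) \ R).card := by
    have h1 := le_card_sdiff R (univ.filter (fun x => G.Adj w x))
    have h2 := hdeg2 w
    omega
  obtain ⟨L, hL, hLn⟩ := exists_subset_card_eq hLc
  apply hno
  refine hGRE V G n r q w L u hLn ?_ hui ?_ ?_
  · intro x hx
    have := hL hx
    rw [mem_sdiff, mem_filter] at this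
    exact this.1.2
  · intro i
    refine ⟨fun h => hUW _ (huG i).1 (h ▸ hTW hw), fun h => ?_⟩
    have := hL h
    rw [mem_sdiff] at this
    exact this.2 (huR i)
  · intro i
    rw [← hm]
    have h1 : 2 * m < (W.filter (fun x => G.Adj (u i) x)).card := by
      by_contra h
      push Not at h
      apply (huG i).2.2
      rw [hB, mem_filter]
      exact ⟨(huG i).1, h⟩
    have h2 : (L.filter (fun x => x ∈ W)).card ≤ (W.filter (fun x => G.Adj w x)).card := by
      apply card_le_card
      intro x hx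
      rw [mem_filter] at hx ⊢
      have := hL hx.1
      rw [mem_sdiff, mem_filter] at this
      exact ⟨hx.2, this.1.2⟩
    have h3 := hTd w hw
    have h4 : ((W.filter (fun x => G.Adj (u i) x)) \ (insert w (L.filter (fun x => x ∈ W)))) ⊆
        univ.filter (fun x => G.Adj (u i) x ∧ x ∉ L ∧ x ≠ w) := by
      intro x hx
      rw [mem_sdiff, mem_filter, mem_insert, mem_filter] at hx
      rw [mem_filter]
      refine ⟨mem_univ _, hx.1.2, fun h => hx.2 (Or.inr ⟨h, hx.1.1⟩), fun h => hx.2 (Or.inl h)⟩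
    have h5 := card_le_card h4
    have h6 := le_card_sdiff (insert w (L.filter (fun x => x ∈ W)))
      (W.filter (fun x => G.Adj (u i) x))
    have h7 := card_insert_le w (L.filter (fun x => x ∈ W))
    omega

end H78.SF

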